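import Pool.Agent.T2H26.NP.End

/-!
# Endomorphisms and CM points at ALL algebraic points near every given point of a variation of Hodge structure

Let `F_j`, `j ∈ J`, be matrices of analytic functions on a connected open subset `U` of `ℂ^n` (bases of the steps of the
Hodge filtration in a flat basis of a variation of Hodge structure, in local coordinates), such that `ℂ(x)` is
algebraically closed in the field generated by the entries (`Regular`; this means that the differential Galois group is
connected), and let `Γ` be a group of matrices such that all algebraic relations over `ℂ(x)` between the entries of the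
`F_j` are relations between the entries of the `γ F_j` (`Invariant`; for instance the monodromy group, or the
differential Galois group). The fibre at `s` is of CM type if and only if there is an integral matrix `M` with distinct
eigenvalues which preserves the filtration at `s`.

There is **one** set `E` of Hausdorff dimension at most `2 (n - 1)` (dimension `0` for variations over curves) such that for
all `x ∈ U` outside `E`, all number fields `K ⊂ ℂ`, all `A` and all `w > 0` (arbitrarily small) the following holds for all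
large `T` and at ALL points `s` with coordinates in `K`, of height at most `T`, with `|s - x| ≤ T^(-w)`: if a
matrix `M` with entries in the integers of `K`, of size at most `T^A`, preserves the filtration at `s`, then so do all
conjugates `γ⁻¹ M γ`, `γ ∈ Γ`; and if `Γ` is infinite, with finite stabilizers of the filtrations, then `M` does not have
distinct eigenvalues. So the CM points near `x` with coordinates in `K` have complexities (sizes of their
multiplications) which grow faster than all powers of the heights. If one fixes `K` and the exponent `τ` of the distance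
`|s - x| ≤ C T^(-τ)`, the dimension of the exceptional set is at most `2 [K : ℚ] (n - 1) / τ`.

The starting file `BoundedEndomorphisms` of this problem covers the exceptional points `s` in `K^n` of height at most `T` by
few hypersurfaces of bounded degree; it says nothing about the neighbourhood of a given point. The proof combines it with the
estimates for the dimension of the set of the points which are well approximable by points on few hypersurfaces
(`Pool.Agent.Helper264.NT.near_all`, `Pool.Agent.R437.Met.Tors.near` of the starting library).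
-/

set_option autoImplicit false

open NumberField Filter Topology
open scoped ENNReal

namespace Pool.Agent.Results.MP_2794d1_ag.CMPointsNearEveryPoint

/-- the space spanned by the columns of a matrix -/
def cols {H : Type} {r : ℕ} (A : Matrix H (Fin r) ℂ) : Submodule ℂ (H → ℂ) :=
  Submodule.span ℂ (Set.range fun (c : Fin r) (m : H) => A m c)

/-- the value at `x` of a polynomial in the entries of the matrices `F_j`, whose coefficients are polynomials in `x` -/
noncomputable def value {X H J : Type} {r : J → ℕ} (F : (j : J) → (X → ℂ) → Matrix H (Fin (r j)) ℂ) (x : X → ℂ)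
    (p : MvPolynomial (Σ j : J, H × Fin (r j)) (MvPolynomial X ℂ)) : ℂ :=
  MvPolynomial.eval₂ (MvPolynomial.eval x) (fun q => F q.1 x q.2.1 q.2.2) p

/-- `ℂ(x)` is algebraically closed in the field generated by the entries of the `F_j` on `U`: if on some nonempty open
set `V ⊆ U` an analytic function `g` is a quotient of polynomials in `x` and the entries, and is algebraic over `ℂ(x)`,
then it is a rational function of `x` -/
def Regular {X H J : Type} [Fintype X] {r : J → ℕ} (U : Set (X → ℂ))
    (F : (j : J) → (X → ℂ) → Matrix H (Fin (r j)) ℂ) : Prop :=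
  ∀ (V : Set (X → ℂ)) (g : (X → ℂ) → ℂ) (P Q : MvPolynomial (Σ j : J, H × Fin (r j)) (MvPolynomial X ℂ))
    (R : Polynomial (MvPolynomial X ℂ)), IsOpen V → V.Nonempty → V ⊆ U → AnalyticOnNhd ℂ g V → R ≠ 0 →
    (∀ x ∈ V, value F x Q ≠ 0) → (∀ x ∈ V, value F x Q * g x = value F x P) →
    (∀ x ∈ V, (R.map (MvPolynomial.eval x)).eval (g x) = 0) →
    ∃ p q : MvPolynomial X ℂ, q ≠ 0 ∧ ∀ x ∈ V, MvPolynomial.eval x q * g x = MvPolynomial.eval x p

/-- the polynomial relations over `ℂ[x]` between the entries of the `F_j` on `U` are relations between the entries of the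
matrices `γ F_j` -/
def Invariant {X H J : Type} [Fintype H] {r : J → ℕ} (U : Set (X → ℂ))
    (F : (j : J) → (X → ℂ) → Matrix H (Fin (r j)) ℂ) (γ : Matrix H H ℂ) : Prop :=
  ∀ p : MvPolynomial (Σ j : J, H × Fin (r j)) (MvPolynomial X ℂ), (∀ x ∈ U, value F x p = 0) →
    ∀ x ∈ U, value (fun j x => γ * F j x) x p = 0

/-- `M` preserves the column spaces of all `F_j(x)` -/
def Preserves {X H J : Type} [Fintype H] {r : J → ℕ} (F : (j : J) → (X → ℂ) → Matrix H (Fin (r j)) ℂ) (x : X → ℂ)
    (M : Matrix H H ℂ) : Prop :=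
  ∀ j, ∀ v ∈ cols (F j x), M.mulVec v ∈ cols (F j x)

/-- `x` is the quotient of two integers of `K` all of whose conjugates have absolute value at most `T` -/
def HeightLe (K : Type) [Field K] [NumberField K] (T : ℝ) (x : K) : Prop :=
  ∃ a b : 𝓞 K, b ≠ 0 ∧ (∀ φ : K →+* ℂ, ‖φ a‖ ≤ T ∧ ‖φ b‖ ≤ T) ∧ x = a / b

/-- All matrices `M` with entries in the integers of `K`, all conjugates of which are of absolute value at most `T ^ A`,
which preserve the filtration at the point `s` have the following properties: all conjugates `γ⁻¹ M γ`, `γ ∈ Γ`, preserve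
it; and if `Γ` is infinite and for every point of `U` only finitely many elements of `Γ` preserve the filtration at
this point, then `M` has a multiple eigenvalue. -/
def Good {X H J : Type} [Fintype H] [DecidableEq H] {r : J → ℕ} (U : Set (X → ℂ))
    (F : (j : J) → (X → ℂ) → Matrix H (Fin (r j)) ℂ) (Γ : Subgroup (GL H ℂ)) (K : IntermediateField ℚ ℂ)
    [NumberField K] (A T : ℝ) (s : X → K) : Prop :=
  ∀ M : Matrix H H (𝓞 K), (∀ i j (φ : K →+* ℂ), ‖φ (M i j)‖ ≤ T ^ A) →
    Preserves F (fun i => (s i : ℂ)) (M.map fun a => ((a : K) : ℂ)) →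
    (∀ γ ∈ Γ, Preserves F (fun i => (s i : ℂ))
      (((γ⁻¹ : GL H ℂ) : Matrix H H ℂ) * (M.map fun a => ((a : K) : ℂ)) * (γ : Matrix H H ℂ))) ∧
    (Infinite Γ → (∀ x ∈ U, {γ : GL H ℂ | γ ∈ Γ ∧
      ∀ j, (cols (F j x)).map (Matrix.toLin' (γ : Matrix H H ℂ)) = cols (F j x)}.Finite) →
      ¬ (M.map fun a => ((a : K) : ℂ)).charpoly.Separable)

/-- **Theorem.** Let `U ⊆ ℂ ^ X` be nonempty, open and connected, `n = |X|`, let the entries of the `F_j` be analytic on
`U` and `Regular`, and let `Γ` be a subgroup of `GL_H(ℂ)` whose elements have the property `Invariant`.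

1. There is a set `E` of Hausdorff dimension at most `2 (n - 1)` such that for all `x ∈ U` outside `E`, all number fields
`K ⊂ ℂ`, all `A` and all `w > 0` there is `T₀` such that for all `T ≥ T₀` all points `s ∈ K ^ X` with coordinates of height at
most `T` and `|s_i - x_i| ≤ T ^ (-w)` are `Good`.

2. For every number field `K ⊂ ℂ` and every `τ > 0` there is a set `E` of Hausdorff dimension at most
`2 [K : ℚ] (n - 1) / τ` such that for all `x ∈ U` outside `E`, all `A` and all `C` there is `T₀` such that for all `T ≥ T₀` all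
points `s ∈ K ^ X` with coordinates of height at most `T` and `|s_i - x_i| ≤ C T ^ (-τ)` are `Good`. -/
theorem result {X H J : Type} [Fintype X] [DecidableEq X] [Nonempty X] [Fintype H] [DecidableEq H] [Fintype J]
    [DecidableEq J] {r : J → ℕ} (U : Set (X → ℂ)) (F : (j : J) → (X → ℂ) → Matrix H (Fin (r j)) ℂ)
    (Γ : Subgroup (GL H ℂ)) (hU : IsPreconnected U) (hUo : IsOpen U) (hne : U.Nonempty)
    (hF : ∀ j m c, AnalyticOnNhd ℂ (fun x => F j x m c) U) (hreg : Regular U F)
    (hΓ : ∀ γ ∈ Γ, Invariant U F (γ : Matrix H H ℂ)) :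
    (∃ E : Set (X → ℂ), dimH E ≤ ((2 * (Fintype.card X - 1) : ℕ) : ℝ≥0∞) ∧ ∀ x ∈ U, x ∉ E →
      ∀ (K : IntermediateField ℚ ℂ) [NumberField K] (A w : ℝ), 0 < w → ∃ T₀ : ℝ, ∀ T ≥ T₀, ∀ s : X → K,
        (∀ i, HeightLe K T (s i) ∧ ‖(s i : ℂ) - x i‖ ≤ T ^ (-w)) → Good U F Γ K A T s) ∧
    (∀ (K : IntermediateField ℚ ℂ) [NumberField K] (τ : ℝ), 0 < τ → ∃ E : Set (X → ℂ),
      dimH E ≤ ENNReal.ofReal (2 * (Module.finrank ℚ K : ℝ) * ((Fintype.card X : ℝ) - 1) / τ) ∧ ∀ x ∈ U, x ∉ E →
      ∀ A C : ℝ, ∃ T₀ : ℝ, ∀ T ≥ T₀, ∀ s : X → K,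
        (∀ i, HeightLe K T (s i) ∧ ‖(s i : ℂ) - x i‖ ≤ C * T ^ (-τ)) → Good U F Γ K A T s) := by
  classical
  set f : Pool.Agent.Y890.VH.Sg H J r → (X → ℂ) → ℂ := fun q x => F q.1 x q.2.1 q.2.2 with hfdef
  have hf : ∀ i, AnalyticOnNhd ℂ (f i) U := fun q => hF q.1 q.2.1 q.2.2
  have hreg' : Pool.Agent.Y890.MV.RegularM U f := fun V g P Q R h1 h2 h3 h4 h5 h6 h7 h8 =>
    hreg V g P Q R h1 h2 h3 h4 h5 h6 h7 h8
  have hΓ' : ∀ γ ∈ Γ, Pool.Agent.Y890.VH.MonInv U f (γ : Matrix H H ℂ) := fun γ hγ p hp x hx => hΓ γ hγ p hp x hx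
  -- the translation of `Good`
  have key : ∀ (K : IntermediateField ℚ ℂ) [NumberField K] (A T : ℝ) (k : ℕ) (s : X → K), 1 ≤ T → A ≤ k →
      (fun i => ((s i : K) : ℂ)) ∈ U → ¬ Pool.Agent.T2H26.NP.BadEnd f Γ K (algebraMap K ℂ) k T s → Good U F Γ K A T s := by
    intro K _ A T k s hT hA hs hbad M hM hP
    have hM' : ∀ i j (φ : K →+* ℂ), ‖φ (M i j : K)‖ ≤ T ^ k := fun i j φ => (hM i j φ).trans (by
      rw [← Real.rpow_natCast]
      exact Real.rpow_le_rpow_of_exponent_le hT hA)
    have hall : ∀ γ ∈ Γ, Pool.Agent.Y890.VH.Pres (Pool.Agent.Y890.VH.act (γ : Matrix H H ℂ)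
        fun y => f y fun j => algebraMap K ℂ (s j)) (M.map fun a => ((a : K) : ℂ)) := by
      intro γ hγ
      by_contra hcon
      exact hbad ⟨M, hM', hP, γ, hγ, hcon⟩
    refine ⟨fun γ hγ j v hv => ?_, fun hinf hst hsep => ?_⟩
    · have h1 := hall γ hγ j ((γ : Matrix H H ℂ).mulVec v) (by
        rw [Pool.Agent.Y890.VH.Fil_act]
        exact ⟨v, hv, rfl⟩)
      rw [Pool.Agent.Y890.VH.Fil_act] at h1
      obtain ⟨u, hu, hu2⟩ := h1
      have h2 : (((γ⁻¹ : GL H ℂ) : Matrix H H ℂ) * (M.map fun a => ((a : K) : ℂ)) * (γ : Matrix H H ℂ)).mulVec v = u := by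
        rw [← Matrix.mulVec_mulVec, ← Matrix.mulVec_mulVec, ← hu2, Matrix.toLin'_apply, Matrix.mulVec_mulVec]
        have h3 : ((γ⁻¹ : GL H ℂ) : Matrix H H ℂ) * (γ : Matrix H H ℂ) = 1 := by
          rw [← Units.val_mul, inv_mul_cancel, Units.val_one]
        rw [h3, Matrix.one_mulVec]
      rw [h2]
      exact hu
    · obtain ⟨γ, hγ, hn⟩ := Pool.Agent.Y890.VH.exists_not_pres Γ hinf (fun y => f y fun j => algebraMap K ℂ (s j))
        (hst _ hs) _ hsep
      exact hn (hall γ hγ)
  have hHt : ∀ (K : IntermediateField ℚ ℂ) [NumberField K] (T : ℝ) (x : K), HeightLe K T x →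
      Pool.Agent.Y120.HtLe K T x := fun K _ T x h => Pool.Agent.R437.Met.Tors.htLe_of h
  refine ⟨?_, ?_⟩
  · obtain ⟨E, hE1, hE2⟩ := Pool.Agent.T2H26.NP.near_end hU hUo hne hf hreg' Γ hΓ'
    refine ⟨E, hE1, fun x hx hxE K _ A w hw => ?_⟩
    obtain ⟨k₀, hk₀⟩ := hE2 x hx hxE
    obtain ⟨T₁, hT₁⟩ := hk₀ K (max k₀ ⌈A⌉₊) (le_max_left _ _) w hw
    obtain ⟨k₁, ρ, -, hρ, hin⟩ := Pool.Agent.T2H26.NP.inner_near hUo hx
    obtain ⟨T₂, hT₂⟩ := Pool.Agent.T2H26.NP.small_rpow hw hρ
    refine ⟨max (max T₁ T₂) 1, fun T hT s hs => ?_⟩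
    have hT1 : 1 ≤ T := (le_max_right _ _).trans hT
    have hd : dist (fun i => ((s i : K) : ℂ)) x ≤ T ^ (-w) := by
      rw [dist_pi_le_iff (by positivity)]
      intro i
      rw [dist_eq_norm]
      exact (hs i).2
    have hmem : (fun i => ((s i : K) : ℂ)) ∈ U := by
      have h1 := hin (k₁ + 1) (Nat.le_succ _) _ (hd.trans_lt (hT₂ T (((le_max_right _ _).trans (le_max_left _ _)).trans hT)))
      exact Pool.Agent.Y890.MV.innerM_sub U (Nat.succ_pos _) h1
    refine key K A T (max k₀ ⌈A⌉₊) s hT1 ?_ hmem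
      (hT₁ T (((le_max_left _ _).trans (le_max_left _ _)).trans hT) s fun i => ⟨hHt K T _ (hs i).1, (hs i).2⟩)
    exact (Nat.le_ceil A).trans (by exact_mod_cast le_max_right _ _)
  · intro K _ τ hτ
    obtain ⟨E, hE, h⟩ := Pool.Agent.R437.Met.Tors.near (X := X) K (algebraMap K ℂ) U hUo
      (fun k T s => Pool.Agent.T2H26.NP.BadEnd f Γ K (algebraMap K ℂ) k T s)
      (fun k T T' s hT hTT' hbad => Pool.Agent.T2H26.NP.badEnd_mono f Γ K _ k T T' s hT hTT' hbad) 1
      (fun k ε hk hε => Pool.Agent.T2H26.NP.badEnd_cov hU hUo hne hf hreg' Γ hΓ' K (algebraMap K ℂ) k ε hk hε) τ hτ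
    refine ⟨E, hE, fun x hx hxE A C => ?_⟩
    obtain ⟨k₀, hk₀⟩ := h x hx hxE
    obtain ⟨T₁, hT₁⟩ := hk₀ (max k₀ ⌈A⌉₊) (le_max_left _ _) C
    obtain ⟨k₁, ρ, -, hρ, hin⟩ := Pool.Agent.T2H26.NP.inner_near hUo hx
    obtain ⟨T₂, hT₂⟩ := Pool.Agent.T2H26.NP.small_rpow hτ (show (0 : ℝ) < ρ / (|C| + 1) by positivity)
    refine ⟨max (max T₁ T₂) 1, fun T hT s hs => ?_⟩
    have hT1 : 1 ≤ T := (le_max_right _ _).trans hT
    have hT0 : 0 < T := by linarith
    have hd : dist (fun i => ((s i : K) : ℂ)) x ≤ |C| * T ^ (-τ) := by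
      rw [dist_pi_le_iff (by positivity)]
      intro i
      rw [dist_eq_norm]
      exact (hs i).2.trans (mul_le_mul_of_nonneg_right (le_abs_self C) (by positivity))
    have hd2 : dist (fun i => ((s i : K) : ℂ)) x < ρ := by
      have h1 := hT₂ T (((le_max_right _ _).trans (le_max_left _ _)).trans hT)
      have h2 : 0 < T ^ (-τ) := Real.rpow_pos_of_pos hT0 _
      rw [lt_div_iff₀ (by positivity)] at h1
      nlinarith [abs_nonneg C]
    have hmem : (fun i => ((s i : K) : ℂ)) ∈ U := by
      have h1 := hin (k₁ + 1) (Nat.le_succ _) _ hd2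
      exact Pool.Agent.Y890.MV.innerM_sub U (Nat.succ_pos _) h1
    refine key K A T (max k₀ ⌈A⌉₊) s hT1 ?_ hmem
      (hT₁ T (((le_max_left _ _).trans (le_max_left _ _)).trans hT) s fun i => ⟨hHt K T _ (hs i).1, by
        rw [norm_sub_rev]
        exact (hs i).2⟩)
    exact (Nat.le_ceil A).trans (by exact_mod_cast le_max_right _ _)

end Pool.Agent.Results.MP_2794d1_ag.CMPointsNearEveryPoint
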